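import Mathlib

/-!
Concave functions on a finite set of points as combinations of truncations `z ↦ min z s`, and the
scalar inequality that combines them.
-/

set_option autoImplicit false

open Finset

namespace Pool.Agent.Lib.MP_46ffdd_an

/-- A function which is nondecreasing and concave (three point form) on `{0} ∪ S`, `S` a finite set
of positive numbers, is there a nonnegative combination of truncations, up to a constant. -/
theorem exists_truncation (S : Finset ℝ) :
    (∀ s ∈ S, 0 < s) → ∀ g : ℝ → ℝ,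
      (∀ x ∈ insert 0 S, ∀ y ∈ insert 0 S, x < y → g x ≤ g y) →
      (∀ x ∈ insert 0 S, ∀ y ∈ insert 0 S, ∀ z ∈ insert 0 S, x < y → y < z →
        (g z - g y) * (y - x) ≤ (g y - g x) * (z - y)) →
      ∃ ν : ℝ → ℝ, (∀ s, 0 ≤ ν s) ∧
        ∀ z ∈ insert 0 S, g z = g 0 + ∑ s ∈ S, ν s * min z s := by
  induction S using Finset.induction_on_max with
  | empty =>
    intro _ g _ _
    refine ⟨fun _ => 0, fun _ => le_rfl, ?_⟩
    intro z hz
    have : z = 0 := by simpa using hz
    simp [this]
  | insert M S hM ih =>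
    intro hpos g hmono hconc
    have hMpos : 0 < M := hpos M (mem_insert_self _ _)
    have hMnot : M ∉ S := fun h => lt_irrefl _ (hM M h)
    -- the previous point
    obtain ⟨m, hm, hmax⟩ : ∃ m ∈ insert 0 S, ∀ x ∈ insert 0 S, x ≤ m :=
      ⟨(insert 0 S).max' (insert_nonempty _ _), max'_mem _ _, fun x hx => le_max' _ x hx⟩
    have hmM : m < M := by
      rcases mem_insert.mp hm with h | h
      · rw [h]; exact hMpos
      · exact hM m h
    have hm0 : 0 ≤ m := hmax 0 (mem_insert_self _ _)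
    have hsub : ∀ x ∈ insert 0 S, x ∈ insert 0 (insert M S) := by
      intro x hx
      rcases mem_insert.mp hx with h | h
      · rw [h]; exact mem_insert_self _ _
      · exact mem_insert_of_mem (mem_insert_of_mem h)
    have hMin : M ∈ insert 0 (insert M S) := mem_insert_of_mem (mem_insert_self _ _)
    set δ : ℝ := (g M - g m) / (M - m) with hδ
    have hMm : 0 < M - m := by linarith
    have hδeq : g M - g m = δ * (M - m) := by rw [hδ]; field_simp
    have hδ0 : 0 ≤ δ := div_nonneg (by linarith [hmono m (hsub m hm) M hMin hmM]) hMm.le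
    obtain ⟨ν, hν0, hν⟩ := ih (fun s hs => hpos s (mem_insert_of_mem hs)) (fun z => g z - δ * z)
      (by
        intro x hx y hy hxy
        have hyM : y < M := lt_of_le_of_lt (hmax y hy) hmM
        have h1 := hconc x (hsub x hx) y (hsub y hy) M hMin hxy hyM
        -- slope (y, M) is at least δ
        have h2 : δ * (M - y) ≤ g M - g y := by
          rcases eq_or_lt_of_le (hmax y hy) with h | h
          · rw [h, hδeq]
          · have h3 := hconc y (hsub y hy) m (hsub m hm) M hMin h hmM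
            have h4 : δ * (m - y) * (M - m) ≤ (g m - g y) * (M - m) := by
              rw [hδeq] at h3
              nlinarith
            have h5 : δ * (m - y) ≤ g m - g y := le_of_mul_le_mul_right h4 hMm
            nlinarith
        have h6 : δ * (y - x) * (M - y) ≤ (g y - g x) * (M - y) := by
          have : 0 < y - x := by linarith
          nlinarith
        have h7 : δ * (y - x) ≤ g y - g x := le_of_mul_le_mul_right h6 (by linarith)
        linarith)
      (by
        intro x hx y hy z hz hxy hyz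
        have := hconc x (hsub x hx) y (hsub y hy) z (hsub z hz) hxy hyz
        nlinarith)
    refine ⟨fun s => if s = M then δ else ν s, ?_, ?_⟩
    · intro s
      simp only
      split_ifs
      · exact hδ0
      · exact hν0 s
    · intro z hz
      rw [sum_insert hMnot]
      have hsum : ∑ s ∈ S, (if s = M then δ else ν s) * min z s = ∑ s ∈ S, ν s * min z s := by
        apply sum_congr rfl
        intro s hs
        rw [if_neg (ne_of_lt (hM s hs))]
      rw [hsum]
      simp only [if_true]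
      by_cases hzM : z = M
      · -- the new point
        have h1 : ∑ s ∈ S, ν s * min M s = ∑ s ∈ S, ν s * min m s := by
          apply sum_congr rfl
          intro s hs
          rw [min_eq_right (hM s hs).le, min_eq_right (hmax s (mem_insert_of_mem hs))]
        have h2 := hν m hm
        simp only [mul_zero, sub_zero] at h2
        rw [hzM, min_self, h1]
        linarith
      · have hz' : z ∈ insert 0 S := by
          rcases mem_insert.mp hz with h | h
          · rw [h]; exact mem_insert_self _ _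
          · rcases mem_insert.mp h with h' | h'
            · exact absurd h' hzM
            · exact mem_insert_of_mem h'
        have h2 := hν z hz'
        simp only [mul_zero, sub_zero] at h2
        have hzlt : z < M := lt_of_le_of_lt (hmax z hz') hmM
        rw [min_eq_left hzlt.le]
        linarith

variable {f : ℝ → ℝ}

/-- For `0 ≤ a ≤ b`: `a f(b) ≤ b f(a)`. -/
theorem concave_ratio (hf : ConcaveOn ℝ (Set.Ici 0) f) (hf0 : ∀ x, 0 ≤ x → 0 ≤ f x) {a b : ℝ}
    (ha : 0 ≤ a) (hab : a ≤ b) : a * f b ≤ b * f a := by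
  rcases eq_or_lt_of_le (ha.trans hab) with h | hb
  · have : a = 0 := le_antisymm (by linarith) ha
    rw [← h, this]
  · have h1 := hf.2 (show (0 : ℝ) ∈ Set.Ici 0 by simp) (show b ∈ Set.Ici 0 by simpa using hb.le)
      (show 0 ≤ 1 - a / b by rw [sub_nonneg, div_le_one hb]; exact hab)
      (show 0 ≤ a / b by positivity) (by ring)
    simp only [smul_eq_mul, mul_zero, zero_add] at h1
    rw [div_mul_cancel₀ _ hb.ne'] at h1
    have h2 : 0 ≤ (1 - a / b) * f 0 :=
      mul_nonneg (by rw [sub_nonneg, div_le_one hb]; exact hab) (hf0 0 le_rfl)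
    have h3 : a / b * f b ≤ f a := by linarith
    calc a * f b = b * (a / b * f b) := by field_simp
      _ ≤ b * f a := by gcongr

theorem concave_three (hf : ConcaveOn ℝ (Set.Ici 0) f) {a b c : ℝ} (ha : 0 ≤ a) (hab : a < b)
    (hbc : b < c) : (f c - f b) * (b - a) ≤ (f b - f a) * (c - b) := by
  have hca : 0 < c - a := by linarith
  have h1 := hf.2 (show a ∈ Set.Ici 0 by simpa using ha) (show c ∈ Set.Ici 0 by simp; linarith)
    (show 0 ≤ (c - b) / (c - a) from div_nonneg (by linarith) hca.le)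
    (show 0 ≤ (b - a) / (c - a) from div_nonneg (by linarith) hca.le) (by field_simp; ring)
  simp only [smul_eq_mul] at h1
  have h2 : (c - b) / (c - a) * a + (b - a) / (c - a) * c = b := by field_simp; ring
  rw [h2] at h1
  have h3 : (c - a) * ((c - b) / (c - a) * f a + (b - a) / (c - a) * f c) ≤ (c - a) * f b := by
    gcongr
  have h4 : (c - a) * ((c - b) / (c - a) * f a + (b - a) / (c - a) * f c) =
      (c - b) * f a + (b - a) * f c := by field_simp
  rw [h4] at h3
  nlinarith

theorem concave_mono (hf : ConcaveOn ℝ (Set.Ici 0) f) (hf0 : ∀ x, 0 ≤ x → 0 ≤ f x) {a b : ℝ}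
    (ha : 0 ≤ a) (hab : a < b) : f a ≤ f b := by
  by_contra hcon
  push Not at hcon
  -- far to the right `f` would be negative
  set d := f a - f b with hd
  have hd0 : 0 < d := by linarith
  set t := f b * (b - a) / d + 1 with ht
  have hfb : 0 ≤ f b := hf0 b (by linarith)
  have ht0 : 0 < t := by
    have : 0 ≤ f b * (b - a) / d := div_nonneg (mul_nonneg hfb (by linarith)) hd0.le
    linarith
  have h1 := concave_three hf ha hab (show b < b + t by linarith)
  have h2 : 0 ≤ f (b + t) := hf0 _ (by linarith)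
  have h3 : d * t = f b * (b - a) + d := by rw [ht]; field_simp
  have h4 : (f (b + t) - f b) * (b - a) ≤ -(d * t) := by
    have : (f b - f a) * (b + t - b) = -(d * t) := by rw [hd]; ring
    linarith
  nlinarith [mul_nonneg h2 (show 0 ≤ b - a by linarith)]

/-- Three point concavity of `z ↦ f(√z)^2`. -/
theorem concave_sq (hf : ConcaveOn ℝ (Set.Ici 0) f) (hf0 : ∀ x, 0 ≤ x → 0 ≤ f x) {a b c : ℝ}
    (ha : 0 ≤ a) (hab : a < b) (hbc : b < c) :
    (f c ^ 2 - f b ^ 2) * (b ^ 2 - a ^ 2) ≤ (f b ^ 2 - f a ^ 2) * (c ^ 2 - b ^ 2) := by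
  have h1 := concave_three hf ha hab hbc
  have h2 : 0 ≤ (f c - f b) * (b - a) :=
    mul_nonneg (by linarith [concave_mono hf hf0 (ha.trans hab.le) hbc]) (by linarith)
  have h3 := concave_ratio hf hf0 (ha.trans hab.le) hbc.le
  have h4 := concave_ratio hf hf0 ha hab.le
  have h5 := concave_ratio hf hf0 ha (hab.le.trans hbc.le)
  have h6 : (f c + f b) * (b + a) ≤ (f b + f a) * (c + b) := by nlinarith
  have h7 : 0 ≤ (f c + f b) * (b + a) :=
    mul_nonneg (add_nonneg (hf0 c (by linarith)) (hf0 b (by linarith))) (by linarith)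
  calc (f c ^ 2 - f b ^ 2) * (b ^ 2 - a ^ 2) =
      ((f c - f b) * (b - a)) * ((f c + f b) * (b + a)) := by ring
    _ ≤ ((f b - f a) * (c - b)) * ((f b + f a) * (c + b)) :=
        mul_le_mul h1 h6 h7 (h2.trans h1)
    _ = _ := by ring

/-- The scalar form of the inequality: if for every threshold `s > 0` the truncated sums satisfy the
inequality with the cross terms `w i j`, then so do the sums of the `f^2`. -/
theorem sum_le_of_truncated {n : ℕ} (hf : ConcaveOn ℝ (Set.Ici 0) f)
    (hf0 : ∀ x, 0 ≤ x → 0 ≤ f x) (a b c : Fin n → ℝ) (ha : ∀ i, 0 ≤ a i) (hb : ∀ i, 0 ≤ b i)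
    (hc : ∀ i, 0 ≤ c i) (w : Fin n → Fin n → ℝ) (w' : Fin n → Fin n → ℝ)
    (hw : ∀ i j, w i j ≤ w' i j) (hw' : ∀ i j, 0 ≤ w' i j)
    (h : ∀ s : ℝ, 0 < s → ∑ k, min (c k ^ 2) s ≤ ∑ i, min (a i ^ 2) s + ∑ j, min (b j ^ 2) s +
      2 * ∑ i, ∑ j, if a i ^ 2 ≤ s ∧ b j ^ 2 ≤ s then a i * b j * w i j else 0) :
    ∑ k, f (c k) ^ 2 ≤ ∑ i, f (a i) ^ 2 + ∑ j, f (b j) ^ 2 +
      2 * ∑ i, ∑ j, f (a i) * f (b j) * w' i j := by
  classical
  set S : Finset ℝ := ((univ.image fun i => a i ^ 2) ∪ (univ.image fun i => b i ^ 2) ∪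
    (univ.image fun i => c i ^ 2)).filter (fun s => 0 < s) with hS
  set g : ℝ → ℝ := fun z => f (Real.sqrt z) ^ 2 with hg
  have hSpos : ∀ s ∈ S, 0 < s := fun s hs => (mem_filter.mp hs).2
  have hS0 : ∀ x ∈ insert 0 S, 0 ≤ x := by
    intro x hx
    rcases mem_insert.mp hx with h | h
    · rw [h]
    · exact (hSpos x h).le
  have hmema : ∀ i, a i ^ 2 ∈ insert 0 S := by
    intro i
    rcases eq_or_lt_of_le (sq_nonneg (a i)) with h | h
    · rw [← h]; exact mem_insert_self _ _
    · refine mem_insert_of_mem (mem_filter.mpr ⟨?_, h⟩)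
      exact mem_union_left _ (mem_union_left _ (mem_image_of_mem _ (mem_univ i)))
  have hmemb : ∀ i, b i ^ 2 ∈ insert 0 S := by
    intro i
    rcases eq_or_lt_of_le (sq_nonneg (b i)) with h | h
    · rw [← h]; exact mem_insert_self _ _
    · refine mem_insert_of_mem (mem_filter.mpr ⟨?_, h⟩)
      exact mem_union_left _ (mem_union_right _ (mem_image_of_mem _ (mem_univ i)))
  have hmemc : ∀ i, c i ^ 2 ∈ insert 0 S := by
    intro i
    rcases eq_or_lt_of_le (sq_nonneg (c i)) with h | h
    · rw [← h]; exact mem_insert_self _ _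
    · refine mem_insert_of_mem (mem_filter.mpr ⟨?_, h⟩)
      exact mem_union_right _ (mem_image_of_mem _ (mem_univ i))
  obtain ⟨ν, hν0, hν⟩ := exists_truncation S hSpos g
    (by
      intro x hx y hy hxy
      have h1 := concave_mono hf hf0 (Real.sqrt_nonneg x) (Real.sqrt_lt_sqrt (hS0 x hx) hxy)
      have h2 := hf0 _ (Real.sqrt_nonneg x)
      simp only [hg]
      gcongr)
    (by
      intro x hx y hy z hz hxy hyz
      have h1 := concave_sq hf hf0 (Real.sqrt_nonneg x) (Real.sqrt_lt_sqrt (hS0 x hx) hxy)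
        (Real.sqrt_lt_sqrt (hS0 y hy) hyz)
      rw [Real.sq_sqrt (hS0 x hx), Real.sq_sqrt (hS0 y hy), Real.sq_sqrt (hS0 z hz)] at h1
      exact h1)
  have hga : ∀ x, 0 ≤ x → g (x ^ 2) = f x ^ 2 := by
    intro x hx
    simp only [hg]
    rw [Real.sqrt_sq hx]
  have hg00 : 0 ≤ g 0 := sq_nonneg _
  -- expand the three sums
  have hsumexp : ∀ e : Fin n → ℝ, (∀ i, 0 ≤ e i) → (∀ i, e i ^ 2 ∈ insert 0 S) →
      ∑ k, f (e k) ^ 2 = n * g 0 + ∑ s ∈ S, ν s * ∑ k, min (e k ^ 2) s := by
    intro e he hmem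
    calc ∑ k, f (e k) ^ 2 = ∑ k, (g 0 + ∑ s ∈ S, ν s * min (e k ^ 2) s) := by
          apply sum_congr rfl
          intro k _
          rw [← hga _ (he k)]; exact hν _ (hmem k)
      _ = n * g 0 + ∑ k, ∑ s ∈ S, ν s * min (e k ^ 2) s := by
          rw [sum_add_distrib]; simp
      _ = _ := by
          rw [sum_comm]
          congr 1
          apply sum_congr rfl
          intro s _
          rw [mul_sum]
  -- the cross terms
  have hcross : ∀ i j, ∑ s ∈ S, ν s * (if a i ^ 2 ≤ s ∧ b j ^ 2 ≤ s then a i * b j * w i j else 0)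
      ≤ f (a i) * f (b j) * w' i j := by
    intro i j
    set D : ℝ := ∑ s ∈ S, if a i ^ 2 ≤ s ∧ b j ^ 2 ≤ s then ν s else 0 with hD
    have hD0 : 0 ≤ D := sum_nonneg fun s _ => by split_ifs; exacts [hν0 s, le_rfl]
    have e1 : ∑ s ∈ S, ν s * (if a i ^ 2 ≤ s ∧ b j ^ 2 ≤ s then a i * b j * w i j else 0) =
        (a i * b j * D) * w i j := by
      rw [hD, mul_sum, sum_mul]
      apply sum_congr rfl
      intro s _
      split_ifs <;> ring
    have e2 : a i ^ 2 * D ≤ f (a i) ^ 2 := by
      rw [← hga _ (ha i), hν _ (hmema i), hD, mul_sum]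
      have : ∑ s ∈ S, a i ^ 2 * (if a i ^ 2 ≤ s ∧ b j ^ 2 ≤ s then ν s else 0) ≤
          ∑ s ∈ S, ν s * min (a i ^ 2) s := by
        apply sum_le_sum
        intro s hs
        split_ifs with hc
        · rw [min_eq_left hc.1]; linarith
        · rw [mul_zero]
          exact mul_nonneg (hν0 s) (le_min (sq_nonneg _) (hSpos s hs).le)
      linarith
    have e3 : b j ^ 2 * D ≤ f (b j) ^ 2 := by
      rw [← hga _ (hb j), hν _ (hmemb j), hD, mul_sum]
      have : ∑ s ∈ S, b j ^ 2 * (if a i ^ 2 ≤ s ∧ b j ^ 2 ≤ s then ν s else 0) ≤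
          ∑ s ∈ S, ν s * min (b j ^ 2) s := by
        apply sum_le_sum
        intro s hs
        split_ifs with hc
        · rw [min_eq_left hc.2]; linarith
        · rw [mul_zero]
          exact mul_nonneg (hν0 s) (le_min (sq_nonneg _) (hSpos s hs).le)
      linarith
    have hfa := hf0 _ (ha i)
    have hfb := hf0 _ (hb j)
    have e4 : a i * b j * D ≤ f (a i) * f (b j) := by
      apply le_of_sq_le_sq _ (mul_nonneg hfa hfb)
      calc (a i * b j * D) ^ 2 = (a i ^ 2 * D) * (b j ^ 2 * D) := by ring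
        _ ≤ f (a i) ^ 2 * f (b j) ^ 2 :=
            mul_le_mul e2 e3 (mul_nonneg (sq_nonneg _) hD0) (sq_nonneg _)
        _ = _ := by ring
    rw [e1]
    calc (a i * b j * D) * w i j ≤ (a i * b j * D) * w' i j := by
          have : 0 ≤ a i * b j * D := mul_nonneg (mul_nonneg (ha i) (hb j)) hD0
          exact mul_le_mul_of_nonneg_left (hw i j) this
      _ ≤ f (a i) * f (b j) * w' i j := mul_le_mul_of_nonneg_right e4 (hw' i j)
  rw [hsumexp c hc hmemc, hsumexp a ha hmema, hsumexp b hb hmemb]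
  have hmain : ∑ s ∈ S, ν s * ∑ k, min (c k ^ 2) s ≤ ∑ s ∈ S, ν s * (∑ i, min (a i ^ 2) s +
      ∑ j, min (b j ^ 2) s + 2 * ∑ i, ∑ j, if a i ^ 2 ≤ s ∧ b j ^ 2 ≤ s then a i * b j * w i j
        else 0) := by
    apply sum_le_sum
    intro s hs
    exact mul_le_mul_of_nonneg_left (h s (hSpos s hs)) (hν0 s)
  have hexp : ∑ s ∈ S, ν s * (∑ i, min (a i ^ 2) s +
      ∑ j, min (b j ^ 2) s + 2 * ∑ i, ∑ j, if a i ^ 2 ≤ s ∧ b j ^ 2 ≤ s then a i * b j * w i j
        else 0) = ∑ s ∈ S, ν s * ∑ i, min (a i ^ 2) s + ∑ s ∈ S, ν s * ∑ j, min (b j ^ 2) s +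
      2 * ∑ i, ∑ j, ∑ s ∈ S, ν s * (if a i ^ 2 ≤ s ∧ b j ^ 2 ≤ s then a i * b j * w i j else 0) := by
    simp only [mul_add, sum_add_distrib]
    congr 1
    rw [mul_sum]
    have : ∀ s ∈ S, ν s * (2 * ∑ i, ∑ j, if a i ^ 2 ≤ s ∧ b j ^ 2 ≤ s then a i * b j * w i j else 0)
        = ∑ i, ∑ j, 2 * (ν s * (if a i ^ 2 ≤ s ∧ b j ^ 2 ≤ s then a i * b j * w i j else 0)) := by
      intro s _
      simp only [mul_sum]
      apply sum_congr rfl
      intro i _
      apply sum_congr rfl
      intro j _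
      ring
    rw [sum_congr rfl this, sum_comm]
    apply sum_congr rfl
    intro i _
    rw [sum_comm, mul_sum]
    apply sum_congr rfl
    intro j _
    rw [mul_sum]
  have hcr : ∑ i, ∑ j, ∑ s ∈ S, ν s * (if a i ^ 2 ≤ s ∧ b j ^ 2 ≤ s then a i * b j * w i j else 0) ≤
      ∑ i, ∑ j, f (a i) * f (b j) * w' i j :=
    sum_le_sum fun i _ => sum_le_sum fun j _ => hcross i j
  have hn : 0 ≤ (n : ℝ) * g 0 := mul_nonneg (Nat.cast_nonneg n) hg00
  rw [hexp] at hmain
  linarith

end Pool.Agent.Lib.MP_46ffdd_an
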