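import Mathlib

/-!
The truncation inequality for singular values of a sum of two operators.
-/

set_option autoImplicit false

open Finset Module

namespace Pool.Agent.Lib.MP_46ffdd_an

variable {n : ℕ} {E : Type*} [NormedAddCommGroup E] [InnerProductSpace ℂ E]
  [FiniteDimensional ℂ E]

/-- Completing the orthogonal system `T (u i)` to an orthonormal basis: the polar part of a singular
value decomposition. -/
theorem exists_right_basis (hE : finrank ℂ E = n) (u : OrthonormalBasis (Fin n) ℂ E)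
    (a : Fin n → ℝ) (T : E →ₗ[ℂ] E)
    (h : ∀ i j, inner ℂ (T (u i)) (T (u j)) = if i = j then ((a i : ℂ)) ^ 2 else 0) :
    ∃ x : OrthonormalBasis (Fin n) ℂ E, ∀ i, T (u i) = (a i : ℂ) • x i := by
  classical
  set v : Fin n → E := fun i => ((a i : ℂ))⁻¹ • T (u i) with hv
  set s : Set (Fin n) := {i | a i ≠ 0} with hs
  have hv1 : Orthonormal ℂ (s.domRestrict v) := by
    rw [orthonormal_iff_ite]
    rintro ⟨i, hi⟩ ⟨j, hj⟩
    have hi' : (a i : ℂ) ≠ 0 := by exact_mod_cast hi
    have hj' : (a j : ℂ) ≠ 0 := by exact_mod_cast hj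
    change inner ℂ (v i) (v j) = _
    simp only [hv, inner_smul_left, inner_smul_right, h i j, Subtype.mk.injEq]
    by_cases hij : i = j
    · subst hij
      simp only [if_true, map_inv₀, Complex.conj_ofReal]
      field_simp
    · simp [hij]
  obtain ⟨x, hx⟩ := hv1.exists_orthonormalBasis_extension_of_card_eq
    (by rw [hE, Fintype.card_fin])
  refine ⟨x, fun i => ?_⟩
  by_cases hi : a i = 0
  · have h1 := h i i
    simp only [if_true, hi, Complex.ofReal_zero, ne_eq, OfNat.ofNat_ne_zero, not_false_eq_true,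
      zero_pow, inner_self_eq_zero] at h1
    rw [h1, hi]; simp
  · rw [hx i hi, hv]
    have hi' : (a i : ℂ) ≠ 0 := by exact_mod_cast hi
    simp only
    rw [smul_smul, mul_inv_cancel₀ hi', one_smul]

/-- An orthonormal basis adapted to the span of a finite family. -/
theorem exists_adapted_basis (hE : finrank ℂ E = n) (K : Submodule ℂ E) :
    ∃ (e : OrthonormalBasis (Fin n) ℂ E) (L : Finset (Fin n)), L.card = finrank ℂ K ∧
      ∀ l, l ∉ L → e l ∈ Kᗮ := by
  classical
  set m := finrank ℂ K with hm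
  have hmn : m ≤ n := hE ▸ Submodule.finrank_le K
  set d : OrthonormalBasis (Fin m) ℂ K := stdOrthonormalBasis ℂ K with hd
  set v : Fin n → E := fun i => if h : (i : ℕ) < m then (d ⟨i, h⟩ : E) else 0 with hv
  set s : Set (Fin n) := {i | (i : ℕ) < m} with hs
  have hv1 : Orthonormal ℂ (s.domRestrict v) := by
    rw [orthonormal_iff_ite]
    rintro ⟨i, hi⟩ ⟨j, hj⟩
    have hi' : (i : ℕ) < m := hi
    have hj' : (j : ℕ) < m := hj
    change inner ℂ (v i) (v j) = _
    simp only [hv, dif_pos hi', dif_pos hj', Subtype.mk.injEq]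
    have h1 := (orthonormal_iff_ite.mp d.orthonormal) ⟨i, hi'⟩ ⟨j, hj'⟩
    rw [← Submodule.coe_inner, h1]
    simp [Fin.ext_iff]
  obtain ⟨e, he⟩ := hv1.exists_orthonormalBasis_extension_of_card_eq
    (by rw [hE, Fintype.card_fin])
  refine ⟨e, univ.filter (fun i : Fin n => (i : ℕ) < m), ?_, ?_⟩
  · rw [Fin.card_filter_val_lt]
    omega
  · intro l hl
    have hl' : ¬ (l : ℕ) < m := by simpa using hl
    rw [Submodule.mem_orthogonal]
    intro w hw
    have h1 : (⟨w, hw⟩ : K) = ∑ i, d.repr ⟨w, hw⟩ i • d i := (d.sum_repr _).symm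
    have h2 : w = ∑ i, d.repr ⟨w, hw⟩ i • (d i : E) := by
      have := congrArg (Subtype.val) h1
      simpa using this
    rw [h2, sum_inner]
    apply sum_eq_zero
    intro i _
    have h3 : (d i : E) = e ⟨i, lt_of_lt_of_le i.2 hmn⟩ := by
      rw [he ⟨i, lt_of_lt_of_le i.2 hmn⟩ i.2, hv]
      simp
    rw [inner_smul_left, h3, orthonormal_iff_ite.mp e.orthonormal, if_neg, mul_zero]
    intro h4
    exact hl' (h4 ▸ i.2)

/-- The truncated operator `∑ i, α i ⟨u i, ·⟩ x i`. -/
noncomputable def op (u x : OrthonormalBasis (Fin n) ℂ E) (α : Fin n → ℝ) (d : E) : E :=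
  ∑ i, ((α i : ℂ) * inner ℂ (u i) d) • x i

theorem eq_op (u x : OrthonormalBasis (Fin n) ℂ E) (a : Fin n → ℝ) (T : E →ₗ[ℂ] E)
    (h : ∀ i, T (u i) = (a i : ℂ) • x i) (d : E) : T d = op u x a d := by
  conv_lhs => rw [← u.sum_repr' d, map_sum]
  unfold op
  apply sum_congr rfl
  intro i _
  rw [map_smul, h i, smul_smul, mul_comm]

theorem norm_sq_op (u x : OrthonormalBasis (Fin n) ℂ E) (α : Fin n → ℝ) (d : E) :
    ‖op u x α d‖ ^ 2 = ∑ i, α i ^ 2 * ‖(inner ℂ (u i) d : ℂ)‖ ^ 2 := by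
  rw [← x.sum_sq_norm_inner_right]
  apply sum_congr rfl
  intro i _
  have : inner ℂ (x i) (op u x α d) = (α i : ℂ) * inner ℂ (u i) d := by
    unfold op
    rw [inner_sum]
    simp only [inner_smul_right, orthonormal_iff_ite.mp x.orthonormal]
    simp
  rw [this, norm_mul, mul_pow]
  simp

theorem inner_op (u x v y : OrthonormalBasis (Fin n) ℂ E) (α β : Fin n → ℝ) (d : E) :
    inner ℂ (op u x α d) (op v y β d) = ∑ i, ∑ j, ((α i : ℂ) * (β j : ℂ) *
      inner ℂ (x i) (y j)) * (inner ℂ (v j) d * inner ℂ d (u i)) := by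
  unfold op
  rw [sum_inner]
  apply sum_congr rfl
  intro i _
  rw [inner_sum]
  apply sum_congr rfl
  intro j _
  rw [inner_smul_left, inner_smul_right, map_mul, Complex.conj_ofReal, inner_conj_symm]
  ring

/-- Hilbert-Schmidt norm of the sum of the two truncated operators, in any orthonormal basis. -/
theorem sum_norm_sq (u x v y e : OrthonormalBasis (Fin n) ℂ E) (α β : Fin n → ℝ) :
    ∑ l, ‖op u x α (e l) + op v y β (e l)‖ ^ 2 = ∑ i, α i ^ 2 + ∑ j, β j ^ 2 +
      2 * ∑ i, ∑ j, α i * β j * (inner ℂ (x i) (y j) * inner ℂ (v j) (u i) : ℂ).re := by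
  have h1 : ∀ l, ‖op u x α (e l) + op v y β (e l)‖ ^ 2 = ‖op u x α (e l)‖ ^ 2 +
      ‖op v y β (e l)‖ ^ 2 + 2 * (inner ℂ (op u x α (e l)) (op v y β (e l)) : ℂ).re := by
    intro l
    rw [@norm_add_sq ℂ]
    simp only [RCLike.re_to_complex]
    ring
  have h2 : ∀ (u x : OrthonormalBasis (Fin n) ℂ E) (α : Fin n → ℝ),
      ∑ l, ‖op u x α (e l)‖ ^ 2 = ∑ i, α i ^ 2 := by
    intro u x α
    simp only [norm_sq_op]
    rw [sum_comm]
    apply sum_congr rfl
    intro i _
    rw [← mul_sum, e.sum_sq_norm_inner_left, u.orthonormal.1 i]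
    simp
  have h3 : ∑ l, (inner ℂ (op u x α (e l)) (op v y β (e l)) : ℂ).re =
      ∑ i, ∑ j, α i * β j * (inner ℂ (x i) (y j) * inner ℂ (v j) (u i) : ℂ).re := by
    rw [← Complex.re_sum]
    simp only [inner_op]
    rw [sum_comm, Complex.re_sum]
    apply sum_congr rfl
    intro i _
    rw [sum_comm, Complex.re_sum]
    apply sum_congr rfl
    intro j _
    rw [← mul_sum, e.sum_inner_mul_inner]
    have : (α i : ℂ) * (β j : ℂ) * inner ℂ (x i) (y j) * inner ℂ (v j) (u i) =
        ((α i * β j : ℝ) : ℂ) * (inner ℂ (x i) (y j) * inner ℂ (v j) (u i)) := by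
      push_cast; ring
    rw [this, Complex.re_ofReal_mul]
  simp only [h1]
  rw [sum_add_distrib, sum_add_distrib, h2 u x α, h2 v y β, ← mul_sum, h3]

/-- The truncation inequality: subadditivity of `∑ min (σ^2) s` up to the cross terms coming from
the singular values whose square is at most `s`. -/
theorem trunc_ineq (hE : finrank ℂ E = n) (u x v y p q : OrthonormalBasis (Fin n) ℂ E)
    (a b c : Fin n → ℝ) (A B : E →ₗ[ℂ] E) (hA : ∀ i, A (u i) = (a i : ℂ) • x i)
    (hB : ∀ j, B (v j) = (b j : ℂ) • y j) (hC : ∀ k, (A + B) (p k) = (c k : ℂ) • q k)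
    {s : ℝ} (hs : 0 < s) :
    ∑ k, min (c k ^ 2) s ≤ ∑ i, min (a i ^ 2) s + ∑ j, min (b j ^ 2) s +
      2 * ∑ i, ∑ j, if a i ^ 2 ≤ s ∧ b j ^ 2 ≤ s then
        a i * b j * (inner ℂ (x i) (y j) * inner ℂ (v j) (u i) : ℂ).re else 0 := by
  classical
  set I : Finset (Fin n) := univ.filter fun i => ¬ (a i ^ 2 ≤ s) with hI
  set J : Finset (Fin n) := univ.filter fun j => ¬ (b j ^ 2 ≤ s) with hJ
  set K : Submodule ℂ E := Submodule.span ℂ ((I.image u ∪ J.image v : Finset E) : Set E) with hK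
  have hKr : finrank ℂ K ≤ I.card + J.card :=
    (finrank_span_finset_le_card _).trans ((card_union_le _ _).trans
      (add_le_add card_image_le card_image_le))
  obtain ⟨e, L, hL, he⟩ := exists_adapted_basis hE K
  set α : Fin n → ℝ := fun i => if a i ^ 2 ≤ s then a i else 0 with hα
  set β : Fin n → ℝ := fun j => if b j ^ 2 ≤ s then b j else 0 with hβ
  have hop : ∀ l, l ∉ L → (A + B) (e l) = op u x α (e l) + op v y β (e l) := by
    intro l hl
    have hl' := (Submodule.mem_orthogonal _ _).mp (he l hl)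
    rw [LinearMap.add_apply, eq_op u x a A hA, eq_op v y b B hB]
    congr 1
    · unfold op
      apply sum_congr rfl
      intro i _
      by_cases hi : a i ^ 2 ≤ s
      · simp only [hα, if_pos hi]
      · have : inner ℂ (u i) (e l) = 0 := by
          apply hl' (u i)
          apply Submodule.subset_span
          rw [mem_coe]
          exact mem_union_left _ (mem_image_of_mem _ (mem_filter.mpr ⟨mem_univ _, hi⟩))
        rw [this]; simp
    · unfold op
      apply sum_congr rfl
      intro j _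
      by_cases hj : b j ^ 2 ≤ s
      · simp only [hβ, if_pos hj]
      · have : inner ℂ (v j) (e l) = 0 := by
          apply hl' (v j)
          apply Submodule.subset_span
          rw [mem_coe]
          exact mem_union_right _ (mem_image_of_mem _ (mem_filter.mpr ⟨mem_univ _, hj⟩))
        rw [this]; simp
  -- the left side, expanded in the basis `e`
  have h1 : ∑ k, min (c k ^ 2) s = ∑ l, ∑ k, min (c k ^ 2) s * ‖(inner ℂ (p k) (e l) : ℂ)‖ ^ 2 := by
    rw [sum_comm]
    apply sum_congr rfl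
    intro k _
    rw [← mul_sum, e.sum_sq_norm_inner_left, p.orthonormal.1 k]
    simp
  have h2 : ∀ l, l ∈ L → ∑ k, min (c k ^ 2) s * ‖(inner ℂ (p k) (e l) : ℂ)‖ ^ 2 ≤ s := by
    intro l _
    calc ∑ k, min (c k ^ 2) s * ‖(inner ℂ (p k) (e l) : ℂ)‖ ^ 2
        ≤ ∑ k, s * ‖(inner ℂ (p k) (e l) : ℂ)‖ ^ 2 :=
          sum_le_sum fun k _ => mul_le_mul_of_nonneg_right (min_le_right _ _) (sq_nonneg _)
      _ = s := by
          rw [← mul_sum, p.sum_sq_norm_inner_right, e.orthonormal.1 l]; simp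
  have h3 : ∀ l, l ∉ L → ∑ k, min (c k ^ 2) s * ‖(inner ℂ (p k) (e l) : ℂ)‖ ^ 2 ≤
      ‖op u x α (e l) + op v y β (e l)‖ ^ 2 := by
    intro l hl
    rw [← hop l hl, eq_op p q c (A + B) hC, norm_sq_op]
    exact sum_le_sum fun k _ => mul_le_mul_of_nonneg_right (min_le_left _ _) (sq_nonneg _)
  have h4 : ∑ k, min (c k ^ 2) s ≤ s * L.card +
      ∑ l, ‖op u x α (e l) + op v y β (e l)‖ ^ 2 := by
    rw [h1, ← sum_add_sum_compl L]
    apply add_le_add
    · calc _ ≤ ∑ l ∈ L, s := sum_le_sum h2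
        _ = s * L.card := by rw [sum_const, nsmul_eq_mul]; ring
    · calc _ ≤ ∑ l ∈ Lᶜ, ‖op u x α (e l) + op v y β (e l)‖ ^ 2 :=
            sum_le_sum fun l hl => h3 l (mem_compl.mp hl)
        _ ≤ _ := sum_le_sum_of_subset_of_nonneg (subset_univ _) fun _ _ _ => sq_nonneg _
  have hLc : s * (L.card : ℝ) ≤ s * (I.card : ℝ) + s * (J.card : ℝ) := by
    rw [← mul_add]
    apply mul_le_mul_of_nonneg_left _ hs.le
    rw [hL]
    exact_mod_cast hKr
  have hmin : ∀ (a : Fin n → ℝ), s * ((univ.filter fun i => ¬ (a i ^ 2 ≤ s)).card : ℝ) +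
      ∑ i, (if a i ^ 2 ≤ s then a i else 0) ^ 2 = ∑ i, min (a i ^ 2) s := by
    intro a
    have e1 : s * ((univ.filter fun i => ¬ (a i ^ 2 ≤ s)).card : ℝ) =
        ∑ i, if a i ^ 2 ≤ s then 0 else s := by
      rw [card_filter]
      push_cast
      rw [mul_sum]
      apply sum_congr rfl
      intro i _
      split_ifs <;> simp_all
    rw [e1, ← sum_add_distrib]
    apply sum_congr rfl
    intro i _
    split_ifs with h
    · rw [min_eq_left h, zero_add]
    · rw [min_eq_right (not_le.mp h).le]; simp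
  have hcr : ∑ i, ∑ j, α i * β j * (inner ℂ (x i) (y j) * inner ℂ (v j) (u i) : ℂ).re =
      ∑ i, ∑ j, if a i ^ 2 ≤ s ∧ b j ^ 2 ≤ s then
        a i * b j * (inner ℂ (x i) (y j) * inner ℂ (v j) (u i) : ℂ).re else 0 := by
    apply sum_congr rfl
    intro i _
    apply sum_congr rfl
    intro j _
    simp only [hα, hβ]
    by_cases hi : a i ^ 2 ≤ s
    · by_cases hj : b j ^ 2 ≤ s
      · simp [hi, hj]
      · simp [hj]
    · simp [hi]
  rw [sum_norm_sq, hcr] at h4
  have ha := hmin a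
  have hb := hmin b
  simp only [hα, hβ] at h4
  linarith

end Pool.Agent.Lib.MP_46ffdd_an
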