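import Mathlib
import Pool.Agent.Lib.MP_46ffdd_an.Concave
import Pool.Agent.Lib.MP_46ffdd_an.Operator

/-!
The inequality in terms of singular value decompositions, and its matrix form.
-/

set_option autoImplicit false

open Finset Module

namespace Pool.Agent.Lib.MP_46ffdd_an

section Bases

variable {n : ℕ} {E : Type*} [NormedAddCommGroup E] [InnerProductSpace ℂ E]
  [FiniteDimensional ℂ E]

theorem bases_ineq (hE : finrank ℂ E = n) (u x v y p q : OrthonormalBasis (Fin n) ℂ E)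
    (a b c : Fin n → ℝ) (ha : ∀ i, 0 ≤ a i) (hb : ∀ i, 0 ≤ b i) (hc : ∀ i, 0 ≤ c i)
    (A B : E →ₗ[ℂ] E) (hA : ∀ i, A (u i) = (a i : ℂ) • x i)
    (hB : ∀ j, B (v j) = (b j : ℂ) • y j) (hC : ∀ k, (A + B) (p k) = (c k : ℂ) • q k)
    (f : ℝ → ℝ) (hf : ConcaveOn ℝ (Set.Ici 0) f) (hf0 : ∀ x, 0 ≤ x → 0 ≤ f x) :
    ∑ k, f (c k) ^ 2 ≤ (1 + Real.sqrt 2) / 2 * (∑ i, f (a i) ^ 2 + ∑ j, f (b j) ^ 2 +
      2 * ∑ i, ∑ j, f (a i) * f (b j) * ‖(inner ℂ (u i) (v j) : ℂ)‖ ^ 2) := by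
  have h1 := sum_le_of_truncated hf hf0 a b c ha hb hc
    (fun i j => (inner ℂ (x i) (y j) * inner ℂ (v j) (u i) : ℂ).re)
    (fun i j => ‖(inner ℂ (x i) (y j) : ℂ)‖ * ‖(inner ℂ (u i) (v j) : ℂ)‖)
    (fun i j => by
      calc _ ≤ ‖(inner ℂ (x i) (y j) * inner ℂ (v j) (u i) : ℂ)‖ := Complex.re_le_norm _
        _ = _ := by rw [norm_mul, norm_inner_symm (v j) (u i)])
    (fun i j => by positivity)
    (fun s hs => trunc_ineq hE u x v y p q a b c A B hA hB hC hs)
  have h2 : (Real.sqrt 2) ^ 2 = 2 := Real.sq_sqrt (by norm_num)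
  have h3 : 1 ≤ Real.sqrt 2 := by
    rw [show (1 : ℝ) = Real.sqrt 1 by simp]
    exact Real.sqrt_le_sqrt (by norm_num)
  set r : ℝ := Real.sqrt 2 with hr
  set P : Fin n → Fin n → ℝ := fun i j => ‖(inner ℂ (x i) (y j) : ℂ)‖ with hP
  set Q : Fin n → Fin n → ℝ := fun i j => ‖(inner ℂ (u i) (v j) : ℂ)‖ with hQ
  have hfa : ∀ i, 0 ≤ f (a i) := fun i => hf0 _ (ha i)
  have hfb : ∀ i, 0 ≤ f (b i) := fun i => hf0 _ (hb i)
  have h4 : 2 * ∑ i, ∑ j, f (a i) * f (b j) * (P i j * Q i j) ≤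
      (r - 1) * ∑ i, ∑ j, f (a i) * f (b j) * P i j ^ 2 +
      (r + 1) * ∑ i, ∑ j, f (a i) * f (b j) * Q i j ^ 2 := by
    simp only [mul_sum, ← sum_add_distrib]
    apply sum_le_sum
    intro i _
    apply sum_le_sum
    intro j _
    have h5 : 2 * (P i j * Q i j) ≤ (r - 1) * P i j ^ 2 + (r + 1) * Q i j ^ 2 := by
      have h6 : 0 ≤ (r + 1) * ((r - 1) * P i j - Q i j) ^ 2 :=
        mul_nonneg (by linarith) (sq_nonneg _)
      have h7 : (r + 1) * ((r - 1) * P i j - Q i j) ^ 2 = (r ^ 2 - 1) * ((r - 1) * P i j ^ 2) -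
          2 * (r ^ 2 - 1) * (P i j * Q i j) + (r + 1) * Q i j ^ 2 := by ring
      rw [h7, h2] at h6
      linarith
    have h7 := mul_le_mul_of_nonneg_left h5 (mul_nonneg (hfa i) (hfb j))
    nlinarith
  have h5 : ∑ i, ∑ j, f (a i) * f (b j) * P i j ^ 2 ≤
      (∑ i, f (a i) ^ 2 + ∑ j, f (b j) ^ 2) / 2 := by
    have e1 : ∑ i, ∑ j, f (a i) ^ 2 * P i j ^ 2 = ∑ i, f (a i) ^ 2 := by
      apply sum_congr rfl
      intro i _
      rw [← mul_sum, hP]
      simp only
      rw [y.sum_sq_norm_inner_left, x.orthonormal.1 i]; simp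
    have e2 : ∑ i, ∑ j, f (b j) ^ 2 * P i j ^ 2 = ∑ j, f (b j) ^ 2 := by
      rw [sum_comm]
      apply sum_congr rfl
      intro j _
      rw [← mul_sum, hP]
      simp only
      rw [x.sum_sq_norm_inner_right, y.orthonormal.1 j]; simp
    rw [← e1, ← e2, ← sum_add_distrib, sum_div]
    apply sum_le_sum
    intro i _
    rw [← sum_add_distrib, sum_div]
    apply sum_le_sum
    intro j _
    have h8 : f (a i) * f (b j) ≤ (f (a i) ^ 2 + f (b j) ^ 2) / 2 := by
      nlinarith [sq_nonneg (f (a i) - f (b j))]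
    have h9 := mul_le_mul_of_nonneg_right h8 (sq_nonneg (P i j))
    linarith
  have h6 := mul_le_mul_of_nonneg_left h5 (show 0 ≤ r - 1 by linarith)
  have h7 : ∑ k, f (c k) ^ 2 ≤ ∑ i, f (a i) ^ 2 + ∑ j, f (b j) ^ 2 +
      2 * ∑ i, ∑ j, f (a i) * f (b j) * (P i j * Q i j) := h1
  change ∑ k, f (c k) ^ 2 ≤ (1 + r) / 2 * (∑ i, f (a i) ^ 2 + ∑ j, f (b j) ^ 2 +
      2 * ∑ i, ∑ j, f (a i) * f (b j) * Q i j ^ 2)
  nlinarith

end Bases

open Matrix ComplexOrder

variable {n : ℕ}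

/-- The singular values of a matrix, attached to an eigenvector basis of `Xᴴ X`. -/
noncomputable def sv (X : Matrix (Fin n) (Fin n) ℂ) (i : Fin n) : ℝ :=
  Real.sqrt ((isHermitian_conjTranspose_mul_self X).eigenvalues i)

theorem exists_svd (X : Matrix (Fin n) (Fin n) ℂ) :
    ∃ x : OrthonormalBasis (Fin n) ℂ (EuclideanSpace ℂ (Fin n)),
      ∀ i, Matrix.toEuclideanLin X ((isHermitian_conjTranspose_mul_self X).eigenvectorBasis i) =
        (sv X i : ℂ) • x i := by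
  apply exists_right_basis (by simp)
  intro i j
  set hX := isHermitian_conjTranspose_mul_self X
  have h1 : inner ℂ (Matrix.toEuclideanLin X (hX.eigenvectorBasis i))
      (Matrix.toEuclideanLin X (hX.eigenvectorBasis j)) =
      inner ℂ (hX.eigenvectorBasis i)
        (Matrix.toEuclideanLin (Xᴴ * X) (hX.eigenvectorBasis j)) := by
    rw [toLpLin_mul_same, LinearMap.comp_apply, toEuclideanLin_conjTranspose_eq_adjoint,
      LinearMap.adjoint_inner_right]
  have h2 : Matrix.toEuclideanLin (Xᴴ * X) (hX.eigenvectorBasis j) =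
      (hX.eigenvalues j : ℂ) • hX.eigenvectorBasis j := by
    have := congrArg (WithLp.toLp 2) (hX.mulVec_eigenvectorBasis j)
    simpa [toLpLin_apply] using this
  rw [h1, h2, inner_smul_right, orthonormal_iff_ite.mp hX.eigenvectorBasis.orthonormal]
  have h3 : 0 ≤ hX.eigenvalues i := (posSemidef_conjTranspose_mul_self X).eigenvalues_nonneg i
  by_cases hij : i = j
  · subst hij
    simp only [if_true, mul_one, sv]
    rw [← Complex.ofReal_pow, Real.sq_sqrt h3]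
  · simp [hij]

/-- `U D Uᴴ`. -/
noncomputable def conj (U : unitaryGroup (Fin n) ℂ) (d : Fin n → ℝ) : Matrix (Fin n) (Fin n) ℂ :=
  (U : Matrix (Fin n) (Fin n) ℂ) * diagonal (fun i => (d i : ℂ)) * (U : Matrix (Fin n) (Fin n) ℂ)ᴴ

theorem conj_conjTranspose (U : unitaryGroup (Fin n) ℂ) (d : Fin n → ℝ) :
    (conj U d)ᴴ = conj U d := by
  unfold conj
  rw [conjTranspose_mul, conjTranspose_mul, conjTranspose_conjTranspose, diagonal_conjTranspose,
    Matrix.mul_assoc]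
  congr 2
  ext i j
  simp [diagonal]

theorem trace_conj_mul (U V : unitaryGroup (Fin n) ℂ) (d d' : Fin n → ℝ) :
    (trace (conj U d * conj V d')).re = ∑ i, ∑ j, d i * d' j *
      ‖((U : Matrix (Fin n) (Fin n) ℂ)ᴴ * (V : Matrix (Fin n) (Fin n) ℂ)) i j‖ ^ 2 := by
  set W : Matrix (Fin n) (Fin n) ℂ :=
    (U : Matrix (Fin n) (Fin n) ℂ)ᴴ * (V : Matrix (Fin n) (Fin n) ℂ) with hW
  have h1 : trace (conj U d * conj V d') =
      trace (diagonal (fun i => (d i : ℂ)) * (W * diagonal (fun i => (d' i : ℂ)) * Wᴴ)) := by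
    unfold conj
    rw [hW, conjTranspose_mul, conjTranspose_conjTranspose]
    rw [Matrix.mul_assoc (U : Matrix (Fin n) (Fin n) ℂ) (diagonal _), Matrix.mul_assoc, trace_mul_comm]
    simp only [Matrix.mul_assoc]
  rw [h1]
  simp only [trace, diag_apply, diagonal_mul, Complex.re_sum]
  apply sum_congr rfl
  intro i _
  rw [Matrix.mul_apply, mul_sum, Complex.re_sum]
  apply sum_congr rfl
  intro j _
  rw [mul_diagonal, conjTranspose_apply]
  have : (d i : ℂ) * (W i j * (d' j : ℂ) * star (W i j)) =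
      ((d i * d' j : ℝ) : ℂ) * (W i j * star (W i j)) := by push_cast; ring
  rw [this, Complex.re_ofReal_mul]
  congr 1
  rw [Complex.star_def, Complex.mul_conj, Complex.ofReal_re, Complex.normSq_eq_norm_sq]

theorem cfc_abs (f : ℝ → ℝ) (X : Matrix (Fin n) (Fin n) ℂ) :
    cfc f (cfc Real.sqrt (Xᴴ * X)) =
      conj (isHermitian_conjTranspose_mul_self X).eigenvectorUnitary (fun i => f (sv X i)) := by
  set hX := isHermitian_conjTranspose_mul_self X
  have hc : ∀ (g : ℝ → ℝ) (s : Set ℝ), s.Finite → ContinuousOn g s := by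
    intro g s hs
    have : Finite s := hs
    rw [continuousOn_iff_continuous_domRestrict]
    fun_prop
  have hX' : IsSelfAdjoint (Xᴴ * X) := hX
  have h1 : cfc (f ∘ Real.sqrt) (Xᴴ * X) = cfc f (cfc Real.sqrt (Xᴴ * X)) :=
    cfc_comp f Real.sqrt (Xᴴ * X) hX' (hc _ _ ((finite_real_spectrum).image _))
      (hc _ _ finite_real_spectrum)
  rw [← h1, hX.cfc_eq]
  unfold IsHermitian.cfc conj
  rw [Unitary.conjStarAlgAut_apply]
  rfl

theorem unitary_entry (X Y : Matrix (Fin n) (Fin n) ℂ) (i j : Fin n) :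
    (((isHermitian_conjTranspose_mul_self X).eigenvectorUnitary : Matrix (Fin n) (Fin n) ℂ)ᴴ *
      ((isHermitian_conjTranspose_mul_self Y).eigenvectorUnitary : Matrix (Fin n) (Fin n) ℂ)) i j =
      inner ℂ ((isHermitian_conjTranspose_mul_self X).eigenvectorBasis i)
        ((isHermitian_conjTranspose_mul_self Y).eigenvectorBasis j) := by
  rw [Matrix.mul_apply, PiLp.inner_apply]
  apply sum_congr rfl
  intro k _
  rw [conjTranspose_apply, IsHermitian.eigenvectorUnitary_apply,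
    IsHermitian.eigenvectorUnitary_apply, RCLike.inner_apply, mul_comm]
  rfl

/-- The squared inequality. -/
theorem trace_ineq (A B : Matrix (Fin n) (Fin n) ℂ)
    (f : ℝ → ℝ) (hf : ConcaveOn ℝ (Set.Ici 0) f) (hf0 : ∀ x, 0 ≤ x → 0 ≤ f x) :
    (trace ((cfc f (cfc Real.sqrt ((A + B)ᴴ * (A + B))))ᴴ *
      cfc f (cfc Real.sqrt ((A + B)ᴴ * (A + B))))).re ≤ (1 + Real.sqrt 2) / 2 *
    (trace ((cfc f (cfc Real.sqrt (Aᴴ * A)) + cfc f (cfc Real.sqrt (Bᴴ * B)))ᴴ *
      (cfc f (cfc Real.sqrt (Aᴴ * A)) + cfc f (cfc Real.sqrt (Bᴴ * B))))).re := by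
  obtain ⟨x, hx⟩ := exists_svd A
  obtain ⟨y, hy⟩ := exists_svd B
  obtain ⟨q, hq⟩ := exists_svd (A + B)
  have hC : ∀ k, (Matrix.toEuclideanLin A + Matrix.toEuclideanLin B)
      ((isHermitian_conjTranspose_mul_self (A + B)).eigenvectorBasis k) =
        (sv (A + B) k : ℂ) • q k := by
    intro k
    rw [← map_add]
    exact hq k
  have h := bases_ineq (by simp) _ x _ y _ q (sv A) (sv B) (sv (A + B))
    (fun i => Real.sqrt_nonneg _) (fun i => Real.sqrt_nonneg _) (fun i => Real.sqrt_nonneg _)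
    _ _ hx hy hC f hf hf0
  have hsame : ∀ (u : OrthonormalBasis (Fin n) ℂ (EuclideanSpace ℂ (Fin n))) (d : Fin n → ℝ),
      ∑ i, ∑ j, d i * d j * ‖(inner ℂ (u i) (u j) : ℂ)‖ ^ 2 = ∑ i, d i ^ 2 := by
    intro u d
    apply sum_congr rfl
    intro i _
    rw [Finset.sum_eq_single i]
    · rw [orthonormal_iff_ite.mp u.orthonormal]; simp; ring
    · intro j _ hj
      rw [orthonormal_iff_ite.mp u.orthonormal, if_neg (Ne.symm hj)]; simp
    · intro hi; exact absurd (mem_univ i) hi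
  have hsymm : ∀ (u v : OrthonormalBasis (Fin n) ℂ (EuclideanSpace ℂ (Fin n))) (d d' : Fin n → ℝ),
      ∑ i, ∑ j, d' i * d j * ‖(inner ℂ (v i) (u j) : ℂ)‖ ^ 2 =
      ∑ i, ∑ j, d i * d' j * ‖(inner ℂ (u i) (v j) : ℂ)‖ ^ 2 := by
    intro u v d d'
    rw [sum_comm]
    apply sum_congr rfl
    intro i _
    apply sum_congr rfl
    intro j _
    rw [norm_inner_symm, mul_comm (d' j)]
  have e1 : (trace ((cfc f (cfc Real.sqrt ((A + B)ᴴ * (A + B))))ᴴ *
      cfc f (cfc Real.sqrt ((A + B)ᴴ * (A + B))))).re = ∑ k, f (sv (A + B) k) ^ 2 := by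
    rw [cfc_abs, conj_conjTranspose, trace_conj_mul]
    simp only [unitary_entry]
    exact hsame _ _
  have e2 : (trace ((cfc f (cfc Real.sqrt (Aᴴ * A)) + cfc f (cfc Real.sqrt (Bᴴ * B)))ᴴ *
      (cfc f (cfc Real.sqrt (Aᴴ * A)) + cfc f (cfc Real.sqrt (Bᴴ * B))))).re =
      ∑ i, f (sv A i) ^ 2 + ∑ j, f (sv B j) ^ 2 + 2 * ∑ i, ∑ j, f (sv A i) * f (sv B j) *
        ‖(inner ℂ ((isHermitian_conjTranspose_mul_self A).eigenvectorBasis i)
          ((isHermitian_conjTranspose_mul_self B).eigenvectorBasis j) : ℂ)‖ ^ 2 := by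
    rw [cfc_abs, cfc_abs, conjTranspose_add, conj_conjTranspose, conj_conjTranspose, add_mul,
      mul_add, mul_add, trace_add, trace_add, trace_add, Complex.add_re, Complex.add_re,
      Complex.add_re, trace_conj_mul, trace_conj_mul, trace_conj_mul, trace_conj_mul]
    simp only [unitary_entry]
    rw [hsame, hsame, hsymm ((isHermitian_conjTranspose_mul_self A).eigenvectorBasis)
      ((isHermitian_conjTranspose_mul_self B).eigenvectorBasis)]
    ring
  rw [e1, e2]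
  exact h

end Pool.Agent.Lib.MP_46ffdd_an
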